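/-
Problem MP_a05699_co, Q1: the connective constant of every cubic Cayley graph of an infinite
virtually abelian group is at least the golden mean; even `σ_n ≥ φ^n` for every `n`.
-/
import Pool.Agent.Lib.MP_a05699_co.Final

set_option autoImplicit false

namespace Pool.Agent.Results.MP_a05699_co.ConnectiveConstant

open Pool.Agent.A05699 Filter Topology

universe u

/-- The Cayley graph of `Γ` for the set `S`: different elements `g`, `h` are adjacent if
`g⁻¹ h ∈ S` or `h⁻¹ g ∈ S` (for `S = S⁻¹` and `1 ∉ S` this is the condition `g⁻¹ h ∈ S`). -/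
def cayleyGraph (Γ : Type u) [Group Γ] (S : Set Γ) : SimpleGraph Γ :=
  SimpleGraph.fromRel (fun g h => g⁻¹ * h ∈ S)

/-- The number `σ_n` of `n`-step self-avoiding walks in the graph `G` which start at `v`. -/
noncomputable def sawCount {V : Type u} (G : SimpleGraph V) (v : V) (n : ℕ) : ℕ :=
  Set.ncard {w : Fin (n + 1) → V | w 0 = v ∧ Function.Injective w ∧
    ∀ i : Fin n, G.Adj (w i.castSucc) (w i.succ)}

/-- `μ` is the connective constant of `G`: `σ_n^{1/n}` tends to `μ`, for every initial vertex. -/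
def IsConnectiveConstant {V : Type u} (G : SimpleGraph V) (μ : ℝ) : Prop :=
  ∀ v : V, Tendsto (fun n : ℕ => (sawCount G v n : ℝ) ^ (1 / (n : ℝ))) atTop (𝓝 μ)

/-- `Γ` contains an abelian subgroup of finite index. -/
def VirtuallyAbelian (Γ : Type u) [Group Γ] : Prop :=
  ∃ H : Subgroup Γ, H.FiniteIndex ∧ ∀ a ∈ H, ∀ b ∈ H, a * b = b * a

theorem sawCount_eq {Γ : Type u} [Group Γ] [DecidableEq Γ] (S : Finset Γ) (h1 : (1 : Γ) ∉ S)
    (hS : ∀ s ∈ S, s⁻¹ ∈ S) (v : Γ) (n : ℕ) :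
    sawCount (cayleyGraph Γ (S : Set Γ)) v n = cnt S n ∅ 1 := by
  rw [← cnt_empty S n v, ← card_wk, ← Set.ncard_coe_finset]
  unfold sawCount
  congr 1
  ext w
  rw [Finset.mem_coe, mem_wk]
  have hadj : ∀ g h : Γ, (cayleyGraph Γ (S : Set Γ)).Adj g h ↔ g⁻¹ * h ∈ S := by
    intro g h
    unfold cayleyGraph
    rw [SimpleGraph.fromRel_adj]
    constructor
    · rintro ⟨_, h2 | h2⟩
      · exact h2
      · have := hS _ h2
        rw [mul_inv_rev, inv_inv] at this
        exact this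
    · intro h2
      refine ⟨?_, Or.inl h2⟩
      rintro rfl
      rw [inv_mul_cancel] at h2
      exact h1 h2
  simp only [Set.mem_ofPred_eq, hadj]
  constructor
  · rintro ⟨ha, hb, hc⟩
    exact ⟨ha, hb, hc, fun i => Finset.notMem_empty _⟩
  · rintro ⟨ha, hb, hc, _⟩
    exact ⟨ha, hb, hc⟩

/-- Let `Γ` be an infinite virtually abelian group and `S` a generating set of `Γ` with three
elements, `S = S⁻¹` and `1 ∉ S`. Then the connective constant of the Cayley graph exists and is at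
least the golden mean; moreover `σ_n ≥ φ^n` for every `n`. -/
theorem result (Γ : Type u) [Group Γ] [Infinite Γ] (hΓ : VirtuallyAbelian Γ) (S : Set Γ)
    (hcard : S.ncard = 3) (h1 : (1 : Γ) ∉ S) (hS : ∀ s ∈ S, s⁻¹ ∈ S)
    (hgen : Subgroup.closure S = ⊤) :
    (∃ μ : ℝ, IsConnectiveConstant (cayleyGraph Γ S) μ ∧ Real.goldenRatio ≤ μ) ∧
    ∀ (v : Γ) (n : ℕ), Real.goldenRatio ^ n ≤ (sawCount (cayleyGraph Γ S) v n : ℝ) := by
  classical
  have hfin : S.Finite := Set.finite_of_ncard_ne_zero (by rw [hcard]; norm_num)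
  obtain ⟨T, rfl⟩ : ∃ T : Finset Γ, (T : Set Γ) = S := ⟨hfin.toFinset, hfin.coe_toFinset⟩
  rw [Set.ncard_coe_finset] at hcard
  have h1' : (1 : Γ) ∉ T := h1
  have hS' : ∀ s ∈ T, s⁻¹ ∈ T := hS
  have hcount : ∀ v n, sawCount (cayleyGraph Γ (T : Set Γ)) v n = cnt T n ∅ 1 :=
    sawCount_eq T h1' hS'
  have hlow : ∀ n : ℕ, Real.goldenRatio ^ n ≤ (cnt T n ∅ 1 : ℝ) := by
    intro n
    have := golden_le_count Γ T hcard h1' hS' hgen hΓ n
    rwa [ncard_walks] at this
  have hpos : ∀ n : ℕ, (0 : ℝ) < (cnt T n ∅ 1 : ℝ) := fun n =>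
    lt_of_lt_of_le (pow_pos Real.goldenRatio_pos n) (hlow n)
  refine ⟨?_, fun v n => by rw [hcount]; exact hlow n⟩
  -- the limit
  have hsub : Subadditive (fun n : ℕ => Real.log (cnt T n ∅ 1 : ℝ)) := by
    intro m n
    show Real.log (cnt T (m + n) ∅ 1 : ℝ) ≤ Real.log (cnt T m ∅ 1 : ℝ) +
      Real.log (cnt T n ∅ 1 : ℝ)
    rw [← Real.log_mul (hpos m).ne' (hpos n).ne']
    apply Real.log_le_log (hpos _)
    exact_mod_cast cnt_submul T m n ∅ 1
  have hlog : ∀ n : ℕ, (n : ℝ) * Real.log Real.goldenRatio ≤ Real.log (cnt T n ∅ 1 : ℝ) := by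
    intro n
    rw [← Real.log_pow]
    exact Real.log_le_log (pow_pos Real.goldenRatio_pos n) (hlow n)
  have hg0 : 0 ≤ Real.log Real.goldenRatio := Real.log_nonneg Real.one_lt_goldenRatio.le
  have hbdd : BddBelow (Set.range fun n : ℕ => Real.log (cnt T n ∅ 1 : ℝ) / n) := by
    refine ⟨0, ?_⟩
    rintro _ ⟨n, rfl⟩
    have h2 : (0 : ℝ) ≤ (n : ℝ) * Real.log Real.goldenRatio := by positivity
    exact div_nonneg (h2.trans (hlog n)) (Nat.cast_nonneg n)
  have hlim := hsub.tendsto_lim hbdd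
  refine ⟨Real.exp hsub.lim, ?_, ?_⟩
  · intro v
    have h2 := (Real.continuous_exp.tendsto _).comp hlim
    refine h2.congr fun n => ?_
    show Real.exp (Real.log (cnt T n ∅ 1 : ℝ) / n) = _
    rw [hcount, Real.rpow_def_of_pos (hpos n), mul_one_div]
  · rw [← Real.exp_log Real.goldenRatio_pos]
    apply Real.exp_le_exp.2
    refine ge_of_tendsto hlim ?_
    filter_upwards [eventually_gt_atTop 0] with n hn
    have hn' : (0 : ℝ) < n := by exact_mod_cast hn
    rw [le_div_iff₀ hn', mul_comm]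
    exact hlog n

end Pool.Agent.Results.MP_a05699_co.ConnectiveConstant
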